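import Pool.Agent.Run7.h460.QA.Avg

/-!
# The average rank of cubic twists over arbitrary dense sets

`E_N : y² + N y = x³` over `ℚ` is `3`-isogenous to the cubic twist `x³ + y³ = N` of the Fermat cubic and
has the same rank. The family consists of the squarefree `D`, prime to `3` and not `±1` modulo `9`, with
exactly one prime divisor `2` modulo `3` (and any number of prime divisors `1` modulo `3`), ordered by size.
The multipliers are the squarefree numbers `m` which are `1` modulo `9` and have only prime divisors `1`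
modulo `3`. We consider the curves `E_{D m}`, `D` in the family.

For the whole family the law of the Selmer ranks is in the starting project Q283 (`MP_8b7eba_nt/
RanksInTwistSequences`, helper703, helper283 and others), which also bounds the averages of the ranks of
the curves `E_{D m_k}`, `k < n`, for almost all fixed `D`. Here the average is over `D`, and `D` runs through
ARBITRARY sets:

* AVERAGE RANK, uniform version. Let `ε, δ > 0`, `B` a natural number and `J` a finite set of multipliers.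
  For all large `X` and for ALL sets `A` of members of the family up to `X`, which have at least the
  proportion `δ` of all the members up to `X`, the average of `min (rank E_{D m}(ℚ), B)` over `D ∈ A` is at
  most `0.92 + ε` for all `m ∈ J` but at most `3 / (δ ε²)`. The number of exceptions depends neither on `A`
  nor on `B` and `J`.
* AVERAGE RANK in an infinite set. Let `A` be an arbitrary subset of the family of upper density at least
  `δ`. For all but at most `3 / (δ ε²)` of ALL the multipliers `m` and for all `B` the average of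
  `min (rank E_{D m}(ℚ), B)` over the `D ∈ A` with `D ≤ X` is at most `0.92 + ε` for arbitrarily large `X`.
* DISTRIBUTION. The Selmer group of the endomorphism `√-3` of `E_{D m}` over `ℚ(√-3)` has order
  `3 ^ (2 s + 1)`, the rank of `E_{D m}(ℚ)` is at most `2 s`, and `s = 0` if and only if `E_{D m}(ℚ)` is finite
  and `Ш(E_{D m}/ℚ)[3^∞] = 0`. Inside every set `A` as in the uniform version the vectors
  `(s(D m_1), ..., s(D m_n))` have the same distribution as in the whole family, up to an error `ε`, for all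
  but `1 / (δ ε²)` of the vectors `(m_1, ..., m_n)` of a finite set of disjoint vectors of multipliers; the
  coordinates are independent with the law `law r = c 3^r / ((3 - 1)² (9 - 1)² ⋯ (3^r - 1)²)`.

So one cannot find a set `A` of positive density whose twists by more than a few multipliers have large
average rank. The method is the second moment method (compare helper428, `Run7/h428`), with one-sided
deviations for all subsets at the same time.
-/

set_option autoImplicit false

open scoped Classical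
open Filter WeierstrassCurve

namespace Pool.Agent.Results.MP_788af2_nt.AverageRankInDenseSets

open Pool.Agent.TH841.SH.D (Coch)
open Pool.Agent.TH841.NF.D (IsShaCoc)

/-- The curve `E_N : y² + N y = x³`. -/
def curve {F : Type} [Field F] (N : F) : WeierstrassCurve F := ⟨0, 0, N, 0, 0⟩

/-- The rank of `E_N(ℚ)`. -/
noncomputable def rank (N : ℕ) : ℕ := Module.finrank ℤ (curve (N : ℚ)).toAffine.Point

/-- The Selmer group of the endomorphism `√-3` of `E_N` over the field `K` of third roots of unity: the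
continuous cocycles with values in its kernel `{0, (0, 0), (0, -N)}` (the Galois group acts trivially on
it, so these cocycles are the classes) that are coboundaries in `E_N` at all the places of `K`. -/
def Sel (K : Type) [Field K] [NumberField K] (N : ℕ) : Set (Coch (curve (N : K))) :=
  {f | IsShaCoc (curve (N : K)) f ∧ ∀ σ, f σ = 0 ∨ ∃ y h, f σ = Affine.Point.some 0 y h}

/-- `E_N(ℚ)` is finite and `Ш(E_N/ℚ)[3^∞] = 0`. -/
def Good (N : ℕ) : Prop :=
  Finite (curve (N : ℚ)).toAffine.Point ∧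
    ∀ (n : ℕ) (x : Pool.Agent.TH841.SH.D.Sha (curve (N : ℚ))), 3 ^ n • x = 0 → x = 0

/-- The Selmer group of `E_N` over `K` has order `3 ^ (2 s + 1)`. -/
def HasSelmerRank (K : Type) [Field K] [NumberField K] (N s : ℕ) : Prop :=
  (Sel K N).ncard = 3 ^ (2 * s + 1)

/-- The family: `D` squarefree, prime to `3`, not `±1` modulo `9`, exactly one prime factor congruent to
`2` modulo `3`. -/
def Family (D : ℕ) : Prop :=
  Squarefree D ∧ ¬ 3 ∣ D ∧ D % 9 ≠ 1 ∧ D % 9 ≠ 8 ∧
    ∃ q : ℕ, q.Prime ∧ q % 3 = 2 ∧ q ∣ D ∧ ∀ p : ℕ, p.Prime → p ∣ D → p ≠ q → p % 3 = 1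

/-- The multipliers: squarefree numbers, `1` modulo `9`, all prime divisors `1` modulo `3`. -/
def IsMultiplier (m : ℕ) : Prop :=
  Squarefree m ∧ m % 9 = 1 ∧ ∀ p : ℕ, p.Prime → p ∣ m → p % 3 = 1

/-- The members `D ≤ X` of the family that belong to `A`. -/
noncomputable def upTo (A : Set ℕ) (X : ℕ) : Finset ℕ :=
  (Finset.Icc 1 X).filter fun D => Family D ∧ D ∈ A

/-- The average over `D ∈ A` of the ranks of the curves `E_{D m}` over `ℚ`, truncated at `B`. -/
noncomputable def averageRank (A : Finset ℕ) (m B : ℕ) : ℝ :=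
  (∑ D ∈ A, ((min (rank (D * m)) B : ℕ) : ℝ)) / A.card

/-- `A` consists of members of the family up to `X`, at least the proportion `δ` of them. -/
def IsDense (δ : ℝ) (X : ℕ) (A : Finset ℕ) : Prop :=
  A ⊆ upTo Set.univ X ∧ δ * ((upTo Set.univ X).card : ℝ) ≤ (A.card : ℝ)

/-- `c = ∏_{i ≥ 1} (1 - 3^{-i})`. -/
noncomputable def c : ℝ := ∏' i : ℕ, (1 - (1 / 3 : ℝ) ^ (i + 1))

/-- The law of the coranks of large square matrices over the field with three elements. -/
noncomputable def law (r : ℕ) : ℝ := c * 3 ^ r / ∏ i ∈ Finset.range r, ((3 : ℝ) ^ (i + 1) - 1) ^ 2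

/-- The vectors of Selmer ranks of the curves `E_{D m_k}` belong to `T`. -/
def RanksIn (K : Type) [Field K] [NumberField K] {n : ℕ} (m : Fin n → ℕ) (T : Set (Fin n → ℕ))
    (D : ℕ) : Prop := ∃ r ∈ T, ∀ k, HasSelmerRank K (D * m k) (r k)

section proof

open Q283.Q3B Q283.Q3N
open Q283.Q3 (cq cq_eq cq_ge sum_cq c3_pos)
open Run7.h460.QA

theorem law_eq (r : ℕ) : cq r = law r := cq_eq r

theorem good_iff (N : ℕ) : Good N ↔ Pool.Agent.Y703.CT.Triv3 N := by
  have h : Pool.Agent.Y703.CT.EQ (Pool.Agent.Y703.CT.WD N) = curve (N : ℚ) := by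
    unfold Pool.Agent.Y703.CT.EQ Pool.Agent.Y703.CT.WD curve WeierstrassCurve.map
    simp
  unfold Good Pool.Agent.Y703.CT.Triv3
  rw [h]

theorem class_iff (D : ℕ) : Family D ↔ Squarefree D ∧ Pool.Agent.Y703.CT.Cls D := by
  unfold Family Pool.Agent.Y703.CT.Cls Pool.Agent.Y703.CT.Base
  constructor
  · rintro ⟨h1, h2, h3, h4, h5⟩
    refine ⟨h1, ⟨h1.ne_zero, h2, ?_⟩, h3, h4, h5⟩
    intro p hp h
    have h6 : p * p ∣ D := (Dvd.intro p (by ring)).trans h
    exact hp.one_lt.ne' (Nat.isUnit_iff.1 (h1 p h6))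
  · rintro ⟨h1, ⟨h6, h2, h7⟩, h3, h4, h5⟩
    exact ⟨h1, h2, h3, h4, h5⟩

theorem isM {m : ℕ} (h : IsMultiplier m) : IsM m :=
  ⟨⟨h.2.1, fun p hp hd => ⟨h.2.2 p hp hd, fun h3 => by
    have h6 : p * p ∣ m := (Dvd.intro p (by ring)).trans h3
    exact hp.one_lt.ne' (Nat.isUnit_iff.1 (h.1 p h6))⟩⟩, h.1⟩

theorem cls {m : ℕ} (h : IsMultiplier m) {D : ℕ} (hD : Family D) :
    Pool.Agent.Y703.CT.Cls (D * m) := by
  have h1 := (class_iff D).1 hD
  exact cls_mul' h1.1 h1.2 (isM h).adm (isM h).sqf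

theorem mem_upTo {A : Set ℕ} {X D : ℕ} :
    D ∈ upTo A X ↔ D ∈ Finset.Icc 1 X ∧ Family D ∧ D ∈ A := by
  unfold upTo
  rw [Finset.mem_filter]

theorem upTo_univ (X : ℕ) : upTo Set.univ X = SN X := by
  ext D
  rw [mem_upTo]
  unfold SN
  rw [Finset.mem_filter]
  refine and_congr_right fun _ => ?_
  rw [← class_iff]
  exact ⟨fun h => h.1, fun h => ⟨h, trivial⟩⟩

theorem fam_of {A : Finset ℕ} {X D : ℕ} (hA : A ⊆ upTo Set.univ X) (hD : D ∈ A) : Family D :=
  (mem_upTo.1 (hA hD)).2.1

/-- the facts for one curve -/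
theorem facts (K : Type) [Field K] [NumberField K] [IsCyclotomicExtension {3} ℚ K] {m : ℕ}
    (h : IsMultiplier m) {D : ℕ} (hD : Family D) : HasSelmerRank K (D * m) (rr (D * m)) ∧
      rank (D * m) ≤ 2 * rr (D * m) ∧ (rr (D * m) = 0 ↔ Good (D * m)) := by
  obtain ⟨⟨j, -⟩, -⟩ := Pool.Agent.Y455.CTK.jex K
  obtain ⟨h1, h2, h3⟩ := sel_N K j (cls h hD)
  exact ⟨h1, h2, h3.trans (good_iff _).symm⟩

theorem ranksIn_iff (K : Type) [Field K] [NumberField K] [IsCyclotomicExtension {3} ℚ K] {n : ℕ}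
    {m : Fin n → ℕ} (h : ∀ k, IsMultiplier (m k)) (T : Set (Fin n → ℕ)) {D : ℕ} (hD : Family D) :
    RanksIn K m T D ↔ rv' m D ∈ T := by
  constructor
  · rintro ⟨r, hr, h2⟩
    have e : rv' m D = r := by
      funext k
      have h3 := h2 k
      have h4 := (facts K (h k) hD).1
      unfold HasSelmerRank at h3 h4
      rw [h4] at h3
      exact pow_inj h3
    rw [e]
    exact hr
  · intro h2
    exact ⟨_, h2, fun k => (facts K (h k) hD).1⟩

theorem average_bound (J : Finset ℕ) (hJ : ∀ m ∈ J, IsMultiplier m) (B : ℕ) {ε δ : ℝ}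
    (hε : 0 < ε) (hδ : 0 < δ) : ∀ᶠ X in atTop, ∀ A : Finset ℕ, IsDense δ X A →
      ((J.filter fun m => 0.92 + ε < averageRank A m B).card : ℝ) ≤ 3 / (δ * ε ^ 2) := by
  have : IsCyclotomicExtension {3} ℚ (CyclotomicField 3 ℚ) :=
    CyclotomicField.isCyclotomicExtension 3 ℚ
  filter_upwards [average J (fun m hm => isM (hJ m hm)) B hε hδ] with X hX A hA
  have hA1 := hA.1
  have hA2 := hA.2
  rw [upTo_univ] at hA2
  refine le_trans ?_ (hX A (by rw [← upTo_univ]; exact hA1) hA2)
  rw [Nat.cast_le]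
  refine Finset.card_le_card fun m hm => ?_
  rw [Finset.mem_filter] at hm ⊢
  refine ⟨hm.1, ?_⟩
  have h1 := hm.2
  unfold averageRank at h1
  rcases A.eq_empty_or_nonempty with rfl | hne
  · exfalso
    rw [Finset.sum_empty, zero_div] at h1
    linarith
  have h0 : (0 : ℝ) < (A.card : ℝ) := by exact_mod_cast hne.card_pos
  rw [lt_div_iff₀ h0] at h1
  refine h1.trans_le (Finset.sum_le_sum fun D hD => ?_)
  have h2 := (facts (CyclotomicField 3 ℚ) (hJ m hm.1) (fam_of hA1 hD)).2.1
  have h3 : min (rank (D * m)) B ≤ 2 * min (rr (D * m)) B := by omega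
  exact_mod_cast h3

theorem averageRank_mono (A : Finset ℕ) (m : ℕ) {B B' : ℕ} (h : B ≤ B') :
    averageRank A m B ≤ averageRank A m B' := by
  unfold averageRank
  refine div_le_div_of_nonneg_right (Finset.sum_le_sum fun D _ => ?_) (Nat.cast_nonneg _)
  exact_mod_cast min_le_min_left _ h

/-- the exceptional multipliers of an infinite set -/
def Exc (A : Set ℕ) (ε : ℝ) : Set ℕ :=
  {m | IsMultiplier m ∧ ∃ B : ℕ, ∀ᶠ X in atTop, 0.92 + ε < averageRank (upTo A X) m B}

theorem exc_card {A : Set ℕ} {ε δ : ℝ} (hε : 0 < ε) (hδ : 0 < δ)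
    (hA : ∃ᶠ X in atTop, IsDense δ X (upTo A X)) (J : Finset ℕ) (hJ : (J : Set ℕ) ⊆ Exc A ε) :
    (J.card : ℝ) ≤ 3 / (δ * ε ^ 2) := by
  choose! B hB using fun m (hm : m ∈ J) => (hJ hm).2
  have h1 : ∀ m ∈ J, ∀ᶠ X in atTop, 0.92 + ε < averageRank (upTo A X) m (J.sup B) := by
    intro m hm
    filter_upwards [hB m hm] with X hX
    exact hX.trans_le (averageRank_mono _ _ (Finset.le_sup hm))
  have h2 : ∀ᶠ X in atTop, ∀ m ∈ J, 0.92 + ε < averageRank (upTo A X) m (J.sup B) := by
    rw [eventually_all_finset]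
    exact h1
  obtain ⟨X, hX1, hX2, hX3⟩ := (hA.and_eventually
    (h2.and (average_bound J (fun m hm => (hJ hm).1) (J.sup B) hε hδ))).exists
  have h3 := hX3 _ hX1
  rwa [Finset.filter_true_of_mem fun m hm => hX2 m hm] at h3

end proof

/-- **Main theorem.** -/
theorem result (K : Type) [Field K] [NumberField K] [IsCyclotomicExtension {3} ℚ K] :
    -- Selmer groups and ranks
    (∀ D m : ℕ, Family D → IsMultiplier m → ∃ s : ℕ, HasSelmerRank K (D * m) s ∧
      rank (D * m) ≤ 2 * s ∧ (s = 0 ↔ Good (D * m))) ∧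
    -- the average rank, for all dense sets at the same time
    (∀ (ε δ : ℝ) (B : ℕ) (J : Finset ℕ), 0 < ε → 0 < δ → (∀ m ∈ J, IsMultiplier m) →
      ∃ X₀ : ℕ, ∀ X : ℕ, X₀ ≤ X → ∀ A : Finset ℕ, IsDense δ X A →
        ((J.filter fun m => 0.92 + ε < averageRank A m B).card : ℝ) ≤ 3 / (δ * ε ^ 2)) ∧
    -- the average rank in an infinite set
    (∀ (ε δ : ℝ) (A : Set ℕ), 0 < ε → 0 < δ → (∃ᶠ X in atTop, IsDense δ X (upTo A X)) →
      {m : ℕ | IsMultiplier m ∧ ∃ B : ℕ, ∀ᶠ X in atTop,
        0.92 + ε < averageRank (upTo A X) m B}.Finite ∧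
      (({m : ℕ | IsMultiplier m ∧ ∃ B : ℕ, ∀ᶠ X in atTop,
        0.92 + ε < averageRank (upTo A X) m B}.ncard : ℕ) : ℝ) ≤ 3 / (δ * ε ^ 2)) ∧
    -- the distribution, for all dense sets at the same time
    (∀ (n : ℕ) (T : Set (Fin n → ℕ)) (ε δ : ℝ) (J : Finset (Fin n → ℕ)), 0 < ε → 0 < δ →
      (∀ m ∈ J, (∀ k, IsMultiplier (m k)) ∧ Function.Injective m) →
      (∀ m ∈ J, ∀ m' ∈ J, m ≠ m' → ∀ k l, m k ≠ m' l) →
      ∃ X₀ : ℕ, ∀ X : ℕ, X₀ ≤ X → ∀ A : Finset ℕ, IsDense δ X A →
        ((J.filter fun m => ε < |((A.filter fun D => RanksIn K m T D).card : ℝ) / A.card -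
          ∑' r : T, ∏ k, law (r.1 k)|).card : ℝ) ≤ 1 / (δ * ε ^ 2)) ∧
    -- the size of the family and the law
    (∃ (a : ℝ) (X₀ : ℕ), 0 < a ∧ ∀ X : ℕ, X₀ ≤ X →
      a * (X / Real.sqrt (Real.log X)) ≤ ((upTo Set.univ X).card : ℝ)) ∧
    HasSum law 1 ∧ 0.56 < law 0 ∧ law 0 < 0.5602 := by
  have hlaw : Q283.Q3.cq = law := funext law_eq
  refine ⟨fun D m hD hm => ⟨_, facts K hm hD⟩, fun ε δ B J hε hδ hJ => ?_,
    fun ε δ A hε hδ hA => ?_, fun n T ε δ J hε hδ hJ hd => ?_, ?_, ?_, ?_⟩
  · exact eventually_atTop.1 (average_bound J hJ B hε hδ)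
  · have h := exc_card hε hδ hA
    have hfin : (Exc A ε).Finite := by
      by_contra hinf
      obtain ⟨N, hN⟩ := exists_nat_gt (3 / (δ * ε ^ 2))
      obtain ⟨J, h1, h2⟩ := (show (Exc A ε).Infinite from hinf).exists_subset_card_eq N
      have h3 := h J h1
      rw [h2] at h3
      linarith
    refine ⟨hfin, ?_⟩
    have h1 := h hfin.toFinset (by rw [Set.Finite.coe_toFinset])
    rw [← Set.ncard_eq_toFinset_card _ hfin] at h1
    exact h1
  · refine eventually_atTop.1 ?_
    filter_upwards [Run7.h460.QA.freq J (fun m hm => ⟨fun k => isM ((hJ m hm).1 k), (hJ m hm).2⟩)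
      hd T hε hδ] with X hX A hA
    have hA1 := hA.1
    have hA2 := hA.2
    rw [upTo_univ] at hA2
    have h1 := hX A (by rw [← upTo_univ]; exact hA1) hA2
    have e1 : Run7.h460.QA.lw T = ∑' r : T, ∏ k, law (r.1 k) := by
      unfold Run7.h460.QA.lw
      rw [hlaw]
    rw [e1] at h1
    refine le_trans (le_of_eq ?_) h1
    congr 1
    refine Q283.Bin.fcc fun m hm => ?_
    have e2 : (A.filter fun D => RanksIn K m T D).card =
        (A.filter fun D => Run7.h460.QA.rv' m D ∈ T).card :=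
      Q283.Bin.fcc fun D hD => ranksIn_iff K (hJ m hm).1 T (fam_of hA1 hD)
    rw [e2]
  · obtain ⟨a, X₀, ha, h⟩ := Q283.Q3N.low_SN
    refine ⟨a, X₀, ha, fun X hX => ?_⟩
    rw [upTo_univ]
    exact h X hX
  · rw [← hlaw]
    exact Q283.Q3.sum_cq
  · unfold law
    rw [Finset.prod_range_zero, pow_zero, mul_one, div_one]
    exact ⟨Pool.Agent.Y461.CX.t_C3.2.2.2, Run7.h460.QA.c3_lt⟩

end Pool.Agent.Results.MP_788af2_nt.AverageRankInDenseSets
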