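import Mathlib
import Pool.Agent.Run7.h69.QA5

/-!
# The average of `2 ^ (δ rank)` in polynomial families of elliptic curves at prime values

Let `A`, `B` be polynomials with integer coefficients such that `A`, `B` and `A - B` are squarefree
over `ℚ`, and let `E_t : y² = x (x - A(t)) (x - B(t))`. Let `q 1, ..., q r` be irreducible
polynomials of positive degree with integer coefficients, no two of them associated, none of which
divides `A`, `B` or `A - B`. For `c = 0, 1, 2` let `n c` be the number of the irreducible factors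
over `ℚ` of the `c`-th of the polynomials `A`, `B`, `A - B` which do not divide the two others
(the places of multiplicative reduction of the family), and let `m c` be the number of those at
which the reduction is split over the residue field. If `0 < δ ≤ 1` and
`2 ^ δ * (n c + m c) ≤ 2 * (n (c + 1) + n (c + 2))` for the three values of `c`, then for every
`ε > 0` the sum of `2 ^ (δ * rank E_t)` over the `t` of an interval `(x, x + H]` at which all the
`|q i (t)|` are primes is at most `C H / (log H) ^ r`, uniformly in `x` and `H ≥ |x| ^ ε`, `H ≥ 2`.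
The number of these `t` is expected to be of this order, unless it is bounded for all intervals
(for example, if a prime divides all the values of a `q i`).
-/

namespace Pool.Agent.Results.MP_788af2_nt.FamiliesAtPrimeValues

open Finset Polynomial UniqueFactorizationMonoid

/-- the curve `y² = x (x - a) (x - b)` over `ℚ` -/
def E (a b : ℤ) : WeierstrassCurve ℚ := ⟨0, -((a : ℚ) + b), 0, (a : ℚ) * b, 0⟩

/-- a polynomial with integer coefficients as a polynomial over `ℚ` -/
noncomputable abbrev toQ (F : ℤ[X]) : ℚ[X] := F.map (Int.castRingHom ℚ)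

/-- the three differences of the roots `0`, `A`, `B` -/
noncomputable def diff (A B : ℤ[X]) (c : Fin 3) : ℤ[X] :=
  if c = 0 then A else if c = 1 then B else A - B

/-- the reduction at a zero of `diff A B c` is split if the value of `gam A B c` is a square -/
noncomputable def gam (A B : ℤ[X]) (c : Fin 3) : ℤ[X] :=
  if c = 0 then -B else if c = 1 then -A else A

open Classical in
/-- the monic irreducible factors over `ℚ` of `diff A B c` that do not divide the two others -/
noncomputable def mult (A B : ℤ[X]) (c : Fin 3) : Finset ℚ[X] :=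
  (normalizedFactors (toQ (diff A B c))).toFinset.filter (fun q => ¬ q ∣ toQ (diff A B (c + 1)))

/-- their number -/
noncomputable def n (A B : ℤ[X]) (c : Fin 3) : ℕ := (mult A B c).card

open Classical in
/-- the number of those modulo which `gam A B c` is a square -/
noncomputable def m (A B : ℤ[X]) (c : Fin 3) : ℕ :=
  ((mult A B c).filter (fun q => ∃ s : ℚ[X], q ∣ toQ (gam A B c) - s ^ 2)).card

/-- the `t` of the interval `(x, x + H]` at which the curve is not singular and all the values
of the polynomials `q i` are primes, up to sign -/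
noncomputable def primeValues (A B : ℤ[X]) {r : ℕ} (q : Fin r → ℤ[X]) (x : ℤ) (H : ℕ) :
    Finset ℤ :=
  (Ioc x (x + H)).filter (fun t => (A.eval t ≠ 0 ∧ B.eval t ≠ 0 ∧ A.eval t ≠ B.eval t) ∧
    ∀ i, ((q i).eval t).natAbs.Prime)

/-- The sum of `2 ^ (δ * rank)` over the prime values, in the family
`y² = x (x - A(t)) (x - B(t))`, uniformly in short intervals. -/
theorem result (A B : ℤ[X]) (hsq : ∀ c, Squarefree (toQ (diff A B c))) (δ : ℝ) (hδ : 0 < δ)
    (hδ1 : δ ≤ 1)
    (hnm : ∀ c : Fin 3, (2 : ℝ) ^ δ * (n A B c + m A B c) ≤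
      2 * (n A B (c + 1) + n A B (c + 2)))
    (r : ℕ) (q : Fin r → ℤ[X]) (hq : ∀ i, Irreducible (q i)) (hqd : ∀ i, 0 < (q i).natDegree)
    (hqa : ∀ i j, i ≠ j → ¬ Associated (q i) (q j)) (hqAB : ∀ i c, ¬ q i ∣ diff A B c)
    (ε : ℝ) (hε : 0 < ε) : ∃ C : ℝ, ∀ (x : ℤ) (H : ℕ), 2 ≤ H → |(x : ℝ)| ^ ε ≤ H →
      ∑ t ∈ primeValues A B q x H,
        (2 : ℝ) ^ (δ * Module.finrank ℤ (E (A.eval t) (B.eval t)).toAffine.Point) ≤
          C * (H / (Real.log H) ^ r) := by
  classical
  set L : ℕ := ⌈1 / ε⌉₊ with hL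
  have hnum : ∀ (c : Fin 3) (S : ℚ[X] → Prop) (s : Finset ℚ[X]),
      (∀ q, q ∈ s ↔ q ∈ mult A B c ∧ S q) → Run7.h69.FZ.num A B c S = s.card := by
    intro c S s hs
    unfold Run7.h69.FZ.num
    congr 1
    ext q
    rw [hs, mem_filter]
    unfold mult
    rw [mem_filter, and_assoc]
    rfl
  have hn : ∀ c, Run7.h69.FZ.num A B c (fun _ => True) = n A B c := fun c =>
    hnum c _ _ fun q => by simp
  have hm : ∀ c, Run7.h69.FZ.num A B c
      (fun q => ∃ s : ℚ[X], q ∣ Run7.h69.PK.qq (Run7.h69.FZ.gam A B c) - s ^ 2) = m A B c :=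
    fun c => hnum c _ _ fun q => by
      rw [mem_filter]
      rfl
  obtain ⟨C, hC⟩ := Run7.h69.QA.main A B hsq hδ hδ1
    (fun c => by rw [hn, hn, hn, hm]; exact hnm c) hq hqa hqd hqAB L
  refine ⟨C, fun x H hH hx => ?_⟩
  have hHr : (1 : ℝ) ≤ H := by exact_mod_cast (by omega : 1 ≤ H)
  have h1 : x.natAbs ≤ H ^ L := by
    have h2 : |(x : ℝ)| ≤ (H : ℝ) ^ (L : ℝ) := by
      calc |(x : ℝ)| = (|(x : ℝ)| ^ ε) ^ (1 / ε) := by
            rw [← Real.rpow_mul (abs_nonneg _), mul_one_div_cancel hε.ne', Real.rpow_one]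
        _ ≤ (H : ℝ) ^ (1 / ε) := Real.rpow_le_rpow (by positivity) hx (by positivity)
        _ ≤ (H : ℝ) ^ (L : ℝ) := Real.rpow_le_rpow_of_exponent_le hHr (Nat.le_ceil _)
    rw [Real.rpow_natCast] at h2
    have h3 : ((x.natAbs : ℕ) : ℝ) = |(x : ℝ)| := by
      rw [Nat.cast_natAbs, Int.cast_abs]
    have h4 : ((x.natAbs : ℕ) : ℝ) ≤ ((H ^ L : ℕ) : ℝ) := by
      rw [h3]
      push_cast
      exact h2
    exact_mod_cast h4
  refine le_trans (le_of_eq ?_) (hC x H hH h1)
  have e : primeValues A B q x H = (Run7.h69.FZ.JJ A B x H).filter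
      (fun t => ∀ i, ((q i).eval t).natAbs.Prime) := by
    ext t
    unfold primeValues Run7.h69.FZ.JJ
    rw [mem_filter, mem_filter, mem_filter]
    exact ⟨fun h => ⟨⟨h.1, h.2.1⟩, h.2.2⟩, fun h => ⟨h.1.1, h.1.2, h.2⟩⟩
  rw [e]
  refine sum_congr rfl fun t _ => ?_
  rw [mul_comm, Real.rpow_mul (by norm_num), Real.rpow_natCast]
  rfl

end Pool.Agent.Results.MP_788af2_nt.FamiliesAtPrimeValues
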