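import Mathlib
import Pool.Agent.Run7.h69.RA7

/-!
# The average of `2 ^ (δ rank)` in one-parameter families over all rational values of the parameter

Let `A`, `B` be polynomials with integer coefficients such that `A`, `B` and `A - B` are of the same
even degree and squarefree over `ℚ`. For rational `t` let `E_t : y² = x (x - A(t)) (x - B(t))`. For
`c = 0, 1, 2` let `n c` be the number of the irreducible factors over `ℚ` of the `c`-th of the
polynomials `A`, `B`, `A - B` which do not divide the two others (the places of multiplicative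
reduction of the family), and let `m c` be the number of those at which the reduction is split over
the residue field. If `0 < δ ≤ 1` and `2 ^ δ * (n c + m c) ≤ 2 * (n (c + 1) + n (c + 2))` for the
three values of `c`, then for every `ε > 0` the sum of `2 ^ (δ * rank E_t)` over the `t = u / v`
(in lowest terms) with `x < u ≤ x + H`, `y < v ≤ y + H` is at most `C H ²`, uniformly in `x`, `y`
and `H ≥ 1` with `H ≥ |x| ^ ε` and `H ≥ y ^ ε`. For `y = 0`, `x = - X - 1`, `H = 2 X + 1` all
rational numbers of height at most `X` are among these `t`.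
-/

namespace Pool.Agent.Results.MP_788af2_nt.FamiliesOverRationalParameters

open Finset Polynomial UniqueFactorizationMonoid

/-- the curve `y² = x (x - a) (x - b)` over `ℚ` -/
def E (a b : ℚ) : WeierstrassCurve ℚ := ⟨0, -(a + b), 0, a * b, 0⟩

/-- a polynomial with integer coefficients as a polynomial over `ℚ` -/
noncomputable abbrev toQ (F : ℤ[X]) : ℚ[X] := F.map (Int.castRingHom ℚ)

/-- the three differences of the roots `0`, `A`, `B` -/
noncomputable def diff (A B : ℤ[X]) (c : Fin 3) : ℤ[X] :=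
  if c = 0 then A else if c = 1 then B else A - B

/-- the reduction at a zero of `diff A B c` is split if the value of `gam A B c` is a square -/
noncomputable def gam (A B : ℤ[X]) (c : Fin 3) : ℤ[X] :=
  if c = 0 then -B else if c = 1 then -A else A

open Classical in
/-- the monic irreducible factors over `ℚ` of `diff A B c` that do not divide the two others -/
noncomputable def mult (A B : ℤ[X]) (c : Fin 3) : Finset ℚ[X] :=
  (normalizedFactors (toQ (diff A B c))).toFinset.filter (fun q => ¬ q ∣ toQ (diff A B (c + 1)))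

/-- their number -/
noncomputable def n (A B : ℤ[X]) (c : Fin 3) : ℕ := (mult A B c).card

open Classical in
/-- the number of those modulo which `gam A B c` is a square -/
noncomputable def m (A B : ℤ[X]) (c : Fin 3) : ℕ :=
  ((mult A B c).filter (fun q => ∃ s : ℚ[X], q ∣ toQ (gam A B c) - s ^ 2)).card

/-- the rational numbers `u / v` in lowest terms with `x < u ≤ x + H` and `y < v ≤ y + H` -/
def Box (x : ℤ) (y H : ℕ) : Set ℚ :=
  {t | x < t.num ∧ t.num ≤ x + H ∧ y < t.den ∧ t.den ≤ y + H}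

theorem box_finite (x : ℤ) (y H : ℕ) : (Box x y H).Finite := by
  refine Set.Finite.subset ((Ioc x (x + H) ×ˢ Ioc (y : ℤ) (y + H)).image
    (fun q : ℤ × ℤ => (q.1 : ℚ) / q.2)).finite_toSet ?_
  intro t ht
  obtain ⟨h1, h2, h3, h4⟩ := ht
  rw [mem_coe, mem_image]
  refine ⟨(t.num, (t.den : ℤ)), ?_, ?_⟩
  · rw [mem_product, mem_Ioc, mem_Ioc]
    exact ⟨⟨h1, h2⟩, by simp only; omega⟩
  · simp only [Int.cast_natCast]
    exact t.num_div_den

open Classical in
/-- those at which the curve is not singular -/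
noncomputable def smooth (A B : ℤ[X]) (x : ℤ) (y H : ℕ) : Finset ℚ :=
  (box_finite x y H).toFinset.filter
    (fun t => aeval t A ≠ 0 ∧ aeval t B ≠ 0 ∧ aeval t A ≠ aeval t B)

/-- The sum of `2 ^ (δ * rank)` in the family `y² = x (x - A(t)) (x - B(t))` over all rational `t`
with numerator and denominator in given intervals, also short ones. -/
theorem result (A B : ℤ[X]) (hsq : ∀ c, Squarefree (toQ (diff A B c)))
    (hdeg : ∀ c, (diff A B c).natDegree = A.natDegree) (hev : Even A.natDegree)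
    (δ : ℝ) (hδ : 0 < δ) (hδ1 : δ ≤ 1)
    (hnm : ∀ c : Fin 3, (2 : ℝ) ^ δ * (n A B c + m A B c) ≤
      2 * (n A B (c + 1) + n A B (c + 2)))
    (ε : ℝ) (hε : 0 < ε) : ∃ C : ℝ, ∀ (x : ℤ) (y H : ℕ), 1 ≤ H → |(x : ℝ)| ^ ε ≤ H →
      (y : ℝ) ^ ε ≤ H →
      ∑ t ∈ smooth A B x y H,
        (2 : ℝ) ^ (δ * Module.finrank ℤ (E (aeval t A) (aeval t B)).toAffine.Point) ≤
          C * (H : ℝ) ^ 2 := by
  classical
  set L : ℕ := ⌈1 / ε⌉₊ with hL
  have hnum : ∀ (c : Fin 3) (S : ℚ[X] → Prop) (s : Finset ℚ[X]),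
      (∀ q, q ∈ s ↔ q ∈ mult A B c ∧ S q) → Run7.h69.FZ.num A B c S = s.card := by
    intro c S s hs
    unfold Run7.h69.FZ.num
    congr 1
    ext q
    rw [hs, mem_filter]
    unfold mult
    rw [mem_filter, and_assoc]
    rfl
  have hn : ∀ c, Run7.h69.FZ.num A B c (fun _ => True) = n A B c := fun c =>
    hnum c _ _ fun q => by simp
  have hm : ∀ c, Run7.h69.FZ.num A B c
      (fun q => ∃ s : ℚ[X], q ∣ Run7.h69.PK.qq (Run7.h69.FZ.gam A B c) - s ^ 2) = m A B c :=
    fun c => hnum c _ _ fun q => by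
      rw [mem_filter]
      rfl
  have hdB : B.natDegree = A.natDegree := hdeg 1
  obtain ⟨C, hC⟩ := Run7.h69.RA.main A B hsq hδ hδ1
    (fun c => by rw [hn, hn, hn, hm]; exact hnm c) (hdeg 1) (hdeg 2) hev L
  refine ⟨C, fun x y H hH hx hy => ?_⟩
  have hHr : (1 : ℝ) ≤ H := by exact_mod_cast hH
  have key : ∀ a : ℝ, 0 ≤ a → a ^ ε ≤ H → a ≤ ((H ^ L : ℕ) : ℝ) := by
    intro a ha h
    have h2 : a ≤ (H : ℝ) ^ (L : ℝ) := by
      calc a = (a ^ ε) ^ (1 / ε) := by
            rw [← Real.rpow_mul ha, mul_one_div_cancel hε.ne', Real.rpow_one]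
        _ ≤ (H : ℝ) ^ (1 / ε) := Real.rpow_le_rpow (by positivity) h (by positivity)
        _ ≤ (H : ℝ) ^ (L : ℝ) := Real.rpow_le_rpow_of_exponent_le hHr (Nat.le_ceil _)
    rw [Real.rpow_natCast] at h2
    push_cast
    exact h2
  have h1 : x.natAbs ≤ H ^ L := by
    have h4 := key |(x : ℝ)| (abs_nonneg _) hx
    have h3 : ((x.natAbs : ℕ) : ℝ) = |(x : ℝ)| := by
      rw [Nat.cast_natAbs, Int.cast_abs]
    rw [← h3] at h4
    exact_mod_cast h4
  have h2 : ((y : ℤ)).natAbs ≤ H ^ L := by
    have h4 := key (y : ℝ) (Nat.cast_nonneg _) hy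
    rw [Int.natAbs_natCast]
    exact_mod_cast h4
  refine le_trans ?_ (hC x y H hH h1 h2)
  set φ : ℚ → ℤ × ℤ := fun t => (t.num, (t.den : ℤ)) with hφ
  set G : ℤ × ℤ → ℝ := fun q => ((2 : ℝ) ^ Run7.h69.FZ.rk ((A.scaleRoots q.2).eval q.1)
    ((B.scaleRoots q.2).eval q.1)) ^ δ with hG
  have hdat : ∀ t ∈ smooth A B x y H, φ t ∈ Run7.h69.RA.JB A B x y H ∧
      (2 : ℝ) ^ (δ * Module.finrank ℤ (E (aeval t A) (aeval t B)).toAffine.Point) =
        G (φ t) := by
    intro t ht
    unfold smooth at ht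
    rw [mem_filter, Set.Finite.mem_toFinset] at ht
    obtain ⟨⟨b1, b2, b3, b4⟩, b5, b6, b7⟩ := ht
    have hv : (t.den : ℤ) ≠ 0 := by exact_mod_cast t.den_ne_zero
    have hvq : (((t.den : ℤ)) : ℚ) ≠ 0 := Int.cast_ne_zero.2 hv
    have ht : ((t.num : ℤ) : ℚ) / (((t.den : ℤ)) : ℚ) = t := by
      rw [Int.cast_natCast]
      exact t.num_div_den
    have eA := Run7.h69.RA.hom_eval A t.num (t.den : ℤ) hv
    have eB := Run7.h69.RA.hom_eval B t.num (t.den : ℤ) hv
    rw [ht] at eA eB
    have hp : (((t.den : ℤ)) : ℚ) ^ A.natDegree ≠ 0 := pow_ne_zero _ hvq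
    have a1 : (A.scaleRoots (t.den : ℤ)).eval t.num ≠ 0 := by
      intro h
      rw [h, Int.cast_zero] at eA
      exact mul_ne_zero hp b5 eA.symm
    have a2 : (B.scaleRoots (t.den : ℤ)).eval t.num ≠ 0 := by
      intro h
      rw [h, Int.cast_zero, hdB] at eB
      exact mul_ne_zero hp b6 eB.symm
    have a3 : (A.scaleRoots (t.den : ℤ)).eval t.num ≠ (B.scaleRoots (t.den : ℤ)).eval t.num := by
      intro h
      rw [h, eB, hdB] at eA
      exact b7 (mul_left_cancel₀ hp eA).symm
    constructor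
    · unfold Run7.h69.RA.JB
      rw [mem_filter, mem_product, mem_Ioc, mem_Ioc]
      refine ⟨⟨⟨b1, b2⟩, ?_⟩, ?_, a1, a2, a3⟩
      · simp only [hφ]
        omega
      · simp only [hφ]
        rw [Int.isCoprime_iff_gcd_eq_one]
        exact t.reduced
    · have hr := Run7.h69.RA.rank_fibre A B hdB hev t.num (t.den : ℤ) hv a1 a2 a3
      rw [ht] at hr
      simp only [hG, hφ]
      rw [← hr, mul_comm, Real.rpow_mul (by norm_num), Real.rpow_natCast]
      rfl
  have hinj : ∀ t ∈ smooth A B x y H, ∀ t' ∈ smooth A B x y H, φ t = φ t' → t = t' := by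
    intro t _ t' _ h
    have e1 : t.num = t'.num := congrArg Prod.fst h
    have e2 : (t.den : ℤ) = t'.den := congrArg Prod.snd h
    exact Rat.ext e1 (by exact_mod_cast e2)
  calc ∑ t ∈ smooth A B x y H,
        (2 : ℝ) ^ (δ * Module.finrank ℤ (E (aeval t A) (aeval t B)).toAffine.Point)
      = ∑ t ∈ smooth A B x y H, G (φ t) := sum_congr rfl fun t ht => (hdat t ht).2
    _ = ∑ q ∈ (smooth A B x y H).image φ, G q := (sum_image hinj).symm
    _ ≤ ∑ q ∈ Run7.h69.RA.JB A B x y H, G q := by
        refine sum_le_sum_of_subset_of_nonneg ?_ fun q _ _ => by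
          simp only [hG]
          positivity
        intro q hq
        obtain ⟨t, ht, rfl⟩ := mem_image.1 hq
        exact (hdat t ht).1

end Pool.Agent.Results.MP_788af2_nt.FamiliesOverRationalParameters
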