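import Pool.Agent.Run7.h245.MO.Tl
import Pool.Agent.Run7.h803.MO.RK

/-!
# Ranks of the elliptic curves of a congruence family: the Poonen-Rains bounds for all moments, over every number field

Let `F` be ANY number field. The curves `E : y² = x³ + a x + b` over `F` are ordered by the height of the problem,
`H(a, b) = max_σ max (4 |σ a|³, 27 |σ b|²)`, where `(a, b)` runs over the pairs of integers of `F` with `4 a³ + 27 b² ≠ 0` such that
no nonzero prime ideal `𝔭` has `𝔭⁴ ∣ a` and `𝔭⁶ ∣ b`.

Theorem. For every `R` and every `δ > 0` there is a congruence family `𝔉` (a union of residue classes of pairs `(a, b)` modulo some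
`m ≥ 1`) with the following property. For all large `X` let `U(X)` be the finite set of the curves of the family of height at
most `X`; it is not empty. Then

* the proportion of the curves of rank at least `s` in `U(X)` is at most `∏_{j = 2}^{s} 2 / (2 ^ j - 1) + δ` for all
  `1 ≤ s ≤ R + 1` (`2/3` for `s = 2`, `4/21` for `s = 3`, `8/315` for `s = 4`, `16/9765` for `s = 5`, ...);
* after removing a subset of proportion at most `δ` from `U(X)`, the average over `U(X)` of the number of `r`-tuples of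
  linearly independent elements of the 2-Selmer group of `E` over `F` is at most `2 ^ (r (r + 1) / 2) + δ`, for all `r ≤ R`.

The numbers `2 ^ (r (r + 1) / 2)` are exactly the moments which are predicted by Poonen and Rains. For `r = 1` this says that the average
order of the 2-Selmer group is at most `3 + δ`, which is known for all curves (Bhargava-Shankar over `ℚ`,
Bhargava-Shankar-Wang over number fields); the bounds for `r ≤ 2` give `15 + 4 δ` for the average of the square of the order `v`, as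
`v² = (v - 1) (v - 2) + 3 (v - 1) + 1`; the bound `15` is known over `ℚ` (Bhargava-Shankar-Swaminathan). For `r ≥ 3` no
bound for a moment, and for `s ≥ 4` no bound of this quality for the proportion of rank `≥ s`, was known in a family of elliptic
curves which is defined by congruences. Heath-Brown, Swinnerton-Dyer, Kane, Klagsbrun-Mazur-Rubin and Smith have all moments (even
the distribution) for the quadratic twists of ONE curve. The family `𝔉` depends on `F`, `R` and `δ` and cannot be prescribed.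

The proof. By project MO (`MP_7cad78_nt.AlmostAllCurvesOfAClass`) there are `W` and levels `T_0, ..., T_k` of rational primes `q = 1`
modulo `8`, with `f = x³ + a x + b` equal to `x` times an irreducible polynomial modulo one prime over `q`, such that for all but a
proportion `δ'` of the pairs `(a, b)` of one residue class the following holds: every class of `F(θ)` (`f(θ) = 0`) with square norm which
is ramified only at earlier levels is trivial at at most `(1/2 + ε)` of the primes of the level `T_j`. The classes form a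
group `Λ`, isotropic for the sum of the hyperbolic forms at the primes of all levels (reciprocity), and the 2-Selmer group of the
twist of `f` by the product of the elements of `J = {q_0, ..., q_k}`, `q_j ∈ T_j`, is the subgroup of the classes which satisfy
conditions at the elements of `J`. Passing from `q_0, ..., q_{j-1}` to `q_0, ..., q_j` the order `v` of the group is multiplied by `1/2` if
it is not trivial at `q_j`, and at most by `2` if it is trivial, which happens for a proportion of at most `1/v + 2 ε` of the `q_j`. If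
`g_r(v) = ∏_{i < r} (v - 2 ^ i)` then `g_r(v / 2) + (1 / v) (g_r(2 v) - g_r(v / 2)) = 2 ^ (-r) g_r(v) + (2 ^ r - 1) g_{r-1}(v)`, so the
averages over all `J` converge to numbers bounded by the `M_r` with `M_r = 2 ^ (-r) M_r + (2 ^ r - 1) M_{r-1}`, i.e.
`M_r = 2 ^ r M_{r-1}`, `M_r = 2 ^ (r (r + 1) / 2)`. The primes of each level are
chosen in a short interval (primes in residue classes), so that all the twists have nearly the same height; the
number of integers of `F` in a residue class with bounded height is asymptotically the volume, so the curves of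
the family (all the twists `D_J`) correspond to the pairs `(f, J)` up to a small proportion.

Files: `Pool/Agent/Run7/h245/MO/{Sm,Lx,Cn,Tr,Mo,Lw,Pq,As,As2,Tl}.lean` (helper245), `Run7/h216/MO/{WIN,MOM}.lean` (helper216),
`Run7/h688/MO/{SHL,ASM}.lean` (helper688), `Run7/h803/MO/RK.lean` (helper803), built on project SR (helpers 13, 67, 68, 228, 245, 277,
366, 382, 576, 697, 711, 713, 796, 824, 890) and on the starting files of project PF (helper783 and others). `Pt`, `Sep`, `act`,
`rs`, `IsCoc`, `LocTriv`, `Comp` are the group of points, separable closures, the action of the Galois group, continuous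
cocycles and their restriction to completions of `Pool.Agent.TH115.GD`.
-/

set_option autoImplicit false
set_option linter.all false

namespace Pool.Agent.Results.MP_788af2_nt.SelmerMomentsCongruenceFamily

open Filter NumberField IsDedekindDomain Pool.Agent.TH115.GD
open scoped Classical

section family

variable {F : Type} [Field F] [NumberField F]

/-- The height `max_σ max (4 |σ A|³, 27 |σ B|²)`, over the embeddings `σ : F → ℂ`. -/
noncomputable def height (p : 𝓞 F × 𝓞 F) : ℝ :=
  ⨆ σ : F →+* ℂ, max (4 * ‖σ (p.1 : F)‖ ^ 3) (27 * ‖σ (p.2 : F)‖ ^ 2)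

/-- The pairs `(A, B)` in `𝔉` of height at most `X` with `4 A ^ 3 + 27 B ^ 2 ≠ 0` for which no nonzero prime ideal `𝔭`
satisfies both `𝔭 ^ 4 ∣ A` and `𝔭 ^ 6 ∣ B`. -/
def Curves (𝔉 : Set (𝓞 F × 𝓞 F)) (X : ℝ) : Set (𝓞 F × 𝓞 F) :=
  {p | p ∈ 𝔉 ∧ 4 * p.1 ^ 3 + 27 * p.2 ^ 2 ≠ 0 ∧
    (∀ 𝔭 : Ideal (𝓞 F), 𝔭.IsPrime → 𝔭 ≠ ⊥ → ¬ (p.1 ∈ 𝔭 ^ 4 ∧ p.2 ∈ 𝔭 ^ 6)) ∧ height p ≤ X}

/-- `𝔉` is a union of residue classes modulo `m`. -/
def Periodic (m : ℕ) (𝔉 : Set (𝓞 F × 𝓞 F)) : Prop :=
  ∀ p ∈ 𝔉, ∀ p' : 𝓞 F × 𝓞 F, (m : 𝓞 F) ∣ p'.1 - p.1 → (m : 𝓞 F) ∣ p'.2 - p.2 → p' ∈ 𝔉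

/-- The curve `y ^ 2 = x ^ 3 + A x + B`. -/
def curve (p : 𝓞 F × 𝓞 F) : WeierstrassCurve F := ⟨0, 0, 0, (p.1 : F), (p.2 : F)⟩

/-- The rank of the group of points over `F`. -/
noncomputable def rank (p : 𝓞 F × 𝓞 F) : ℕ := Module.finrank ℤ (curve p).toAffine.Point

end family

section selmer

variable (K : Type) [Field K] [NumberField K] (W : WeierstrassCurve K)

/-- The cocycle `f` of `Gal(Sep K / K)` is a coboundary over all completions of `K`: at every maximal ideal
of the ring of integers and over `ℝ` for every real embedding (over `ℂ` there is no condition). -/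
structure Locally (f : (Sep K ≃ₐ[K] Sep K) → Pt W (Sep K)) : Prop where
  finite : ∀ v : HeightOneSpectrum (𝓞 K), LocTriv W (Comp (𝓞 K) K v) (Sep (Comp (𝓞 K) K v)) f
  real : ∀ ρ : K →+* ℝ, letI := ρ.toAlgebra; LocTriv W ℝ (Sep ℝ) f

/-- A continuous cocycle of `Gal(Sep K / K)` with values in the points of order two, which is a coboundary (with
values in all points) over all completions. -/
structure IsSelmer (f : (Sep K ≃ₐ[K] Sep K) → Pt W (Sep K)) : Prop where
  coc : IsCoc W f
  two : ∀ σ, (2 : ℕ) • f σ = 0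
  loc : Locally K W f

/-- Cocycles are equivalent if they differ by the coboundary of a point of order two. -/
def selmerSetoid : Setoid {f : (Sep K ≃ₐ[K] Sep K) → Pt W (Sep K) // IsSelmer K W f} where
  r f f' := ∃ T : Pt W (Sep K), (2 : ℕ) • T = 0 ∧ ∀ σ, f.1 σ - f'.1 σ = act W (rs K σ) T - T
  iseqv := by
    refine ⟨fun f => ⟨0, smul_zero _, fun σ => by rw [map_zero]; abel⟩, ?_, ?_⟩
    · rintro f f' ⟨T, hT, h⟩
      refine ⟨-T, by rw [smul_neg, hT, neg_zero], fun σ => ?_⟩
      have e : f'.1 σ - f.1 σ = -(f.1 σ - f'.1 σ) := by abel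
      rw [map_neg, e, h σ]
      abel
    · rintro f f' f'' ⟨T, hT, h⟩ ⟨T', hT', h'⟩
      refine ⟨T + T', by rw [smul_add, hT, hT', add_zero], fun σ => ?_⟩
      have e : f.1 σ - f''.1 σ = (f.1 σ - f'.1 σ) + (f'.1 σ - f''.1 σ) := by abel
      rw [e, h, h', map_add]
      abel

/-- The 2-Selmer group of `W`, as a set. -/
def SelmerTwo : Type := Quotient (selmerSetoid K W)

end selmer

section moments

variable {F : Type} [Field F] [NumberField F]

/-- The number `∏_{i < r} (|Sel| - 2 ^ i)` of `r`-tuples of linearly independent elements of the 2-Selmer group. -/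
noncomputable def tuples (r : ℕ) (p : 𝓞 F × 𝓞 F) : ℝ :=
  ∏ i ∈ Finset.range r, ((Nat.card (SelmerTwo F (curve p)) : ℝ) - 2 ^ i)

end moments

theorem card_eq (K : Type) [Field K] [NumberField K] (W : WeierstrassCurve K) :
    Nat.card (SelmerTwo K W) = Nat.card (Pool.Agent.Run7.h245.SR.Sel2 K W) := by
  have e : ∀ f : (Sep K ≃ₐ[K] Sep K) → Pt W (Sep K), IsSelmer K W f ↔
      Pool.Agent.Run7.h245.SR.SelCoc K W f := fun f =>
    ⟨fun h => ⟨h.coc, h.two, h.loc.finite, h.loc.real⟩, fun h => ⟨h.coc, h.two, ⟨h.finite, h.real⟩⟩⟩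
  refine Nat.card_congr (Quotient.congr (Equiv.subtypeEquivRight e) ?_)
  intro f f'
  exact Iff.rfl

theorem height_le {F : Type} [Field F] [NumberField F] (X : ℝ) (p : 𝓞 F × 𝓞 F) :
    height p ≤ X ↔ p ∈ Pool.Agent.Run7.h245.MO.Hg (F := F) X := by
  have hb : BddAbove (Set.range fun σ : F →+* ℂ =>
      max (4 * ‖σ (p.1 : F)‖ ^ 3) (27 * ‖σ (p.2 : F)‖ ^ 2)) := Set.Finite.bddAbove (Set.finite_range _)
  constructor
  · intro h σ
    exact max_le_iff.1 ((le_ciSup hb σ).trans h)
  · intro h
    exact ciSup_le fun σ => max_le_iff.2 (h σ)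

theorem curves_eq {F : Type} [Field F] [NumberField F] (𝔉 : Set (𝓞 F × 𝓞 F)) (X : ℝ) :
    Curves 𝔉 X = Pool.Agent.Run7.h245.MO.Up 𝔉 X := by
  ext p
  constructor
  · rintro ⟨h1, h2, h3, h4⟩
    exact ⟨⟨h2, h3⟩, (height_le X p).1 h4, h1⟩
  · rintro ⟨⟨h2, h3⟩, h4, h1⟩
    exact ⟨h1, h2, h3, (height_le X p).2 h4⟩

theorem tuples_eq {F : Type} [Field F] [NumberField F] (r : ℕ) (p : 𝓞 F × 𝓞 F) :
    tuples r p = Pool.Agent.Run7.h245.MO.gr r p := by
  unfold tuples Pool.Agent.Run7.h245.MO.gr Pool.Agent.Run7.h245.MO.sl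
  rw [card_eq]
  rfl

/-- For every number field `F`, every `R` and every `δ > 0` there are `m > 0` and a union `𝔉` of residue classes modulo `m` such
that for all large `X`: the proportion of rank `≥ s` among the curves of `𝔉` of height at most `X` is at most
`∏_{j = 2}^s 2 / (2 ^ j - 1) + δ`, `1 ≤ s ≤ R + 1`; and for a subset `G` of proportion at least `1 - δ` the sum over `G` of the
numbers of `r`-tuples of linearly independent elements of the 2-Selmer groups is at most `2 ^ (r (r + 1) / 2) + δ` times the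
number of all curves of `𝔉` of height at most `X`, `r ≤ R`. -/
theorem result (F : Type) [Field F] [NumberField F] (R : ℕ) (δ : ℝ) (hδ : 0 < δ) :
    ∃ (m : ℕ) (𝔉 : Set (𝓞 F × 𝓞 F)), 0 < m ∧ Periodic m 𝔉 ∧ ∀ᶠ X : ℝ in atTop,
      (Curves 𝔉 X).Finite ∧ 0 < (Curves 𝔉 X).ncard ∧
      (∀ s : ℕ, 1 ≤ s → s ≤ R + 1 → ({p ∈ Curves 𝔉 X | s ≤ rank p}.ncard : ℝ) ≤
        ((∏ j ∈ Finset.Ico 2 (s + 1), 2 / ((2 : ℝ) ^ j - 1)) + δ) * ((Curves 𝔉 X).ncard : ℝ)) ∧
      ∃ G ⊆ Curves 𝔉 X, (1 - δ) * ((Curves 𝔉 X).ncard : ℝ) ≤ (G.ncard : ℝ) ∧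
        (∀ p ∈ G, ∃ d : ℕ, Nat.card (SelmerTwo F (curve p)) = 2 ^ d) ∧
        ∀ r ≤ R, ∑ᶠ p ∈ G, tuples r p ≤
          (2 ^ (r * (r + 1) / 2) + δ) * ((Curves 𝔉 X).ncard : ℝ) := by
  obtain ⟨m, 𝔉, hm, hper, h⟩ := Pool.Agent.Run7.h245.MO.momF F R (δ / 2) (by positivity)
  refine ⟨m, 𝔉, hm, hper, ?_⟩
  filter_upwards [h] with X hX
  rw [← curves_eq] at hX
  obtain ⟨h1, h2, G, hG, hcard, hpow, hmom⟩ := hX
  have hcard' : (1 - δ) * ((Curves 𝔉 X).ncard : ℝ) ≤ (1 - δ / 2) * ((Curves 𝔉 X).ncard : ℝ) :=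
    mul_le_mul_of_nonneg_right (by linarith) (Nat.cast_nonneg _)
  have hpow' : ∀ p : 𝓞 F × 𝓞 F, ∃ d : ℕ, p ∈ G → Pool.Agent.Run7.h245.MO.sl p = 2 ^ d := by
    intro p
    by_cases hp : p ∈ G
    · obtain ⟨d, hd⟩ := hpow p hp
      exact ⟨d, fun _ => hd⟩
    · exact ⟨0, fun h => absurd h hp⟩
  choose d hd using hpow'
  refine ⟨h1, h2, ?_, G, hG, hcard'.trans hcard, ?_, ?_⟩
  · intro s hs1 hsR
    have ht := Pool.Agent.Run7.h245.MO.tail (Curves 𝔉 X) G h1 hG (δ := δ / 2) (by positivity) hcard
      d s hs1 ?_ rank ?_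
    · refine ht.trans (le_of_eq ?_)
      rw [mul_div_cancel₀ δ (two_ne_zero)]
      rfl
    · refine le_trans (le_of_eq ?_) (hmom (s - 1) (by omega))
      refine finsum_mem_congr rfl fun p hp => ?_
      unfold Pool.Agent.Run7.h245.MO.gr Pool.Agent.Run7.h216.MO.Ip
      rw [hd p hp]
      push_cast
      rfl
    · intro p hp
      refine Pool.Agent.Run7.h803.MO.t_RK F (p.1 : F) (p.2 : F) (d p) ?_ (hd p hp)
      obtain ⟨-, hdisc, -⟩ := hG hp
      intro hz
      refine hdisc ?_
      have e : ((4 * p.1 ^ 3 + 27 * p.2 ^ 2 : 𝓞 F) : F) = 4 * (p.1 : F) ^ 3 + 27 * (p.2 : F) ^ 2 := by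
        push_cast
        rfl
      rw [hz] at e
      exact_mod_cast e
  · intro p hp
    rw [card_eq]
    exact hpow p hp
  · intro r hr
    refine (le_of_eq ?_).trans ((hmom r hr).trans (mul_le_mul_of_nonneg_right (by linarith)
      (Nat.cast_nonneg _)))
    exact finsum_mem_congr rfl fun p _ => tuples_eq r p

end Pool.Agent.Results.MP_788af2_nt.SelmerMomentsCongruenceFamily
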